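import Pool.Agent.Lib.MP_7d48f8_nt.D.Main

/-- For all large real `x`, the largest prime factor of the product of the integers `n` with
`x < n ≤ x + √x` is larger than `x ^ (3 / 4)`. -/
theorem Pool.Agent.Results.MP_7d48f8_nt.ThreeQuarters.result :
    ∀ᶠ x : ℝ in Filter.atTop, x ^ (3 / 4 : ℝ) <
      (((∏ n ∈ Finset.Ioc ⌊x⌋₊ ⌊x + √x⌋₊, n).primeFactors.sup id : ℕ) : ℝ) := by
  filter_upwards [Pool.Agent.Lib.MP_7d48f8_nt.main, Filter.eventually_ge_atTop 0] with x h hx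
  obtain ⟨n, p, h1, h2, h3, h4, h5⟩ := h
  refine h5.trans_le (Nat.cast_le.2 (Finset.le_sup (f := id) (Nat.mem_primeFactors.2 ⟨h3,
    h4.trans (Finset.dvd_prod_of_mem _ (Finset.mem_Ioc.2 ⟨(Nat.floor_lt hx).2 h1, Nat.le_floor h2⟩)),
    Finset.prod_ne_zero_iff.2 fun m hm => (Nat.zero_lt_of_lt (Finset.mem_Ioc.1 hm).1).ne'⟩)))
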